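import Mathlib

namespace Pool.Agent.Results.MP_ef197a_an.Conv

open Set Filter Topology Metric
open scoped RealInnerProductSpace

/-- Euclidean three-space. -/
abbrev X := EuclideanSpace ℝ (Fin 3)

/-- `P` is the nearest-point projection onto `C`. -/
def IsProj (C : Set X) (P : X → X) : Prop := ∀ x, P x ∈ C ∧ ∀ y ∈ C, ‖x - P x‖ ≤ ‖x - y‖

/-- The reflector `2 P - Id`. -/
def refl (P : X → X) (x : X) : X := (2 : ℝ) • P x - x

/-- The Douglas–Rachford operator `(Id + R_B R_A) / 2`. -/
noncomputable def DR (PA PB : X → X) (x : X) : X := (1 / 2 : ℝ) • (x + refl PB (refl PA x))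

theorem DR_eq (PA PB : X → X) (x : X) : DR PA PB x = x - (PA x - PB (refl PA x)) := by
  simp only [DR, refl]; module

theorem vi {C : Set X} {P : X → X} (hC : Convex ℝ C) (h : IsProj C P) (x : X) :
    ∀ w ∈ C, ⟪x - P x, w - P x⟫ ≤ 0 := by
  refine (norm_eq_iInf_iff_real_inner_le_zero hC (h x).1).1 (le_antisymm ?_ ?_)
  · haveI : Nonempty C := ⟨⟨_, (h x).1⟩⟩
    exact le_ciInf fun y => (h x).2 y y.2
  · exact ciInf_le (f := fun w : C => ‖x - w‖) ⟨0, by rintro _ ⟨y, rfl⟩; positivity⟩ ⟨_, (h x).1⟩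

theorem refl_ne {C : Set X} {P : X → X} (hC : Convex ℝ C) (h : IsProj C P) (x y : X) :
    ‖refl P x - refl P y‖ ≤ ‖x - y‖ := by
  have h1 := vi hC h x _ (h y).1
  have h2 := vi hC h y _ (h x).1
  have h3 : ⟪P x - P y, P x - P y⟫ ≤ ⟪P x - P y, x - y⟫ := by
    simp only [inner_sub_left, inner_sub_right, real_inner_comm] at *
    linarith
  rw [show refl P x - refl P y = (2 : ℝ) • (P x - P y) - (x - y) by simp only [refl]; module]
  refine (sq_le_sq₀ (norm_nonneg _) (norm_nonneg _)).1 ?_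
  rw [real_inner_self_eq_norm_sq] at h3
  rw [norm_sub_sq_real, norm_smul, real_inner_smul_left, mul_pow]
  norm_num
  linarith

theorem firm {A B : Set X} {PA PB : X → X} (hA : Convex ℝ A) (hB : Convex ℝ B) (pA : IsProj A PA)
    (pB : IsProj B PB) (x y : X) : ‖DR PA PB x - DR PA PB y‖ ^ 2 +
      ‖(x - DR PA PB x) - (y - DR PA PB y)‖ ^ 2 ≤ ‖x - y‖ ^ 2 := by
  have h := (refl_ne hB pB (refl PA x) (refl PA y)).trans (refl_ne hA pA x y)
  have h' := pow_le_pow_left₀ (norm_nonneg _) h 2
  set n := refl PB (refl PA x) - refl PB (refl PA y) with hn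
  rw [show DR PA PB x - DR PA PB y = (1 / 2 : ℝ) • ((x - y) + n) by simp only [DR, hn]; module,
    show (x - DR PA PB x) - (y - DR PA PB y) = (1 / 2 : ℝ) • ((x - y) - n) by
      simp only [DR, hn]; module, norm_smul, norm_smul, mul_pow, mul_pow]
  have := parallelogram_law_with_norm ℝ (x - y) n
  norm_num
  nlinarith

theorem uniq (c e p : X) (ρ τ : ℝ) (he : ‖e‖ = 1) (h0 : 0 ≤ ρ) (h1 : ρ ≤ τ) (h2 : ‖p - c‖ ≤ ρ)
    (h3 : ‖c + τ • e - p‖ ≤ τ - ρ) : p = c + ρ • e := by
  rcases h1.eq_or_lt with rfl | h1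
  · exact (sub_eq_zero.1 (norm_le_zero_iff.1 (by simpa using h3))).symm
  obtain ⟨d, rfl⟩ : ∃ d, p = c + d := ⟨p - c, by abel⟩
  rw [add_sub_cancel_left] at h2
  rw [add_sub_add_left_eq_sub] at h3
  have h4 := pow_le_pow_left₀ (norm_nonneg _) h3 2
  rw [norm_sub_sq_real, norm_smul, real_inner_smul_left, he, mul_one, Real.norm_eq_abs, sq_abs] at h4
  have h5 : ⟪e, d⟫ ≤ ‖d‖ := by simpa [he] using real_inner_le_norm e d
  have h6 := norm_nonneg d
  have h7 : ρ ≤ ⟪e, d⟫ := by nlinarith
  congr 1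
  refine (sub_eq_zero.1 (norm_eq_zero.1 (pow_eq_zero_iff two_ne_zero |>.1 (le_antisymm ?_
    (by positivity))))).symm
  rw [norm_sub_sq_real, norm_smul, real_inner_smul_left, he, mul_one, Real.norm_eq_abs, sq_abs]
  nlinarith

theorem proj_far {c : X} {ρ : ℝ} {P : X → X} (h : IsProj (closedBall c ρ) P) (e : X) (τ : ℝ)
    (he : ‖e‖ = 1) (h0 : 0 ≤ ρ) (h1 : ρ ≤ τ) : P (c + τ • e) = c + ρ • e := by
  refine uniq c e _ ρ τ he h0 h1 (mem_closedBall_iff_norm.1 (h _).1)
    (((h _).2 (c + ρ • e) (by simp [norm_smul, he, abs_of_nonneg h0])).trans_eq ?_)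
  rw [add_sub_add_left_eq_sub, ← sub_smul, norm_smul, he, mul_one, Real.norm_of_nonneg (by linarith)]

theorem polar (x : X) (hx : x ≠ 0) : ∃ e : X, ‖e‖ = 1 ∧ x = ‖x‖ • e :=
  ⟨‖x‖⁻¹ • x, norm_smul_inv_norm hx, by rw [smul_inv_smul₀ (norm_ne_zero_iff.2 hx)]⟩

theorem proj_mul {c : X} {ρ : ℝ} {P : X → X} (h : IsProj (closedBall c ρ) P) (h0 : 0 ≤ ρ) (x : X) :
    ∃ μ : ℝ, P x = c + μ • (x - c) := by
  rcases le_or_gt ‖x - c‖ ρ with h1 | h1
  · refine ⟨1, ?_⟩
    have := (h x).2 x (mem_closedBall_iff_norm.2 h1)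
    rw [sub_self, norm_zero, norm_le_zero_iff, sub_eq_zero] at this
    simp [← this]
  · have n0 : ‖x - c‖ ≠ 0 := by linarith
    obtain ⟨e, he, hx⟩ := polar (x - c) (norm_ne_zero_iff.1 n0)
    have := proj_far h e _ he h0 h1.le
    rw [← hx, add_sub_cancel] at this
    refine ⟨ρ / ‖x - c‖, ?_⟩
    rw [this]
    conv_rhs => rw [hx, norm_smul, he, norm_norm, mul_one, smul_smul, div_mul_cancel₀ _ n0]

theorem fejer (y : ℕ → X) (z : X)
    (h : ∀ n, ‖y (n + 1) - z‖ ^ 2 + ‖y n - y (n + 1)‖ ^ 2 ≤ ‖y n - z‖ ^ 2) :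
    (∃ l, Tendsto (fun n => ‖y n - z‖ ^ 2) atTop (𝓝 l)) ∧
      Tendsto (fun n => y n - y (n + 1)) atTop (𝓝 0) := by
  have anti : Antitone fun n => ‖y n - z‖ ^ 2 := antitone_nat_of_succ_le fun n => by
    linarith [h n, sq_nonneg ‖y n - y (n + 1)‖]
  have l := tendsto_atTop_ciInf anti ⟨0, by rintro _ ⟨n, rfl⟩; positivity⟩
  refine ⟨⟨_, l⟩, ?_⟩
  have l2 := l.sub ((tendsto_add_atTop_iff_nat 1).2 l)
  rw [sub_self] at l2
  have l3 := squeeze_zero (fun n => sq_nonneg ‖y n - y (n + 1)‖) (fun n => by linarith [h n]) l2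
  rw [tendsto_zero_iff_norm_tendsto_zero]
  simpa using l3.sqrt

theorem line (u : ℕ → X) (l : ℝ) (h1 : Tendsto (fun n => ‖u n‖) atTop (𝓝 l))
    (h2 : Tendsto (fun n => u n - u (n + 1)) atTop (𝓝 0))
    (h3 : ∀ n, ∃ t : ℝ, u (n + 1) = t • u n) : ∃ p, Tendsto u atTop (𝓝 p) := by
  rcases (ge_of_tendsto' h1 fun n => norm_nonneg _).eq_or_lt with rfl | l0
  · exact ⟨0, tendsto_zero_iff_norm_tendsto_zero.2 h1⟩
  obtain ⟨N, hN⟩ := eventually_atTop.1 ((h1.eventually (lt_mem_nhds (half_lt_self l0))).and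
    ((tendsto_zero_iff_norm_tendsto_zero.1 h2).eventually (gt_mem_nhds (half_pos l0))))
  obtain ⟨e, he, hu⟩ := polar (u N) (norm_pos_iff.1 (by linarith [(hN N le_rfl).1]))
  have : ∀ n, N ≤ n → u n = ‖u n‖ • e := fun n hn => by
    induction n, hn using Nat.le_induction with
    | base => exact hu
    | succ n hn ih =>
      obtain ⟨t, ht⟩ := h3 n
      obtain ⟨a1, a2⟩ := hN n hn
      have t0 : 0 ≤ t := by
        by_contra h
        rw [ht, show u n - t • u n = (1 - t) • u n by module, norm_smul,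
          Real.norm_of_nonneg (by linarith)] at a2
        nlinarith
      rw [ht, norm_smul, Real.norm_of_nonneg t0, mul_smul, ← ih]
  exact ⟨l • e, (h1.smul_const e).congr' (eventually_atTop.2 ⟨N, fun n hn => (this n hn).symm⟩)⟩

theorem result (a b : X) (r s : ℝ) (hr : 0 ≤ r) (hs : 0 ≤ s) (PA PB : X → X)
    (hA : IsProj (closedBall a r) PA) (hB : IsProj (closedBall b s) PB) (v : X)
    (hv : v ∈ closure (range fun x => x - DR PA PB x))
    (hv' : ∀ w ∈ closure (range fun x => x - DR PA PB x), ‖v‖ ≤ ‖w‖) (x : X) :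
    ∃ l, Tendsto (fun n : ℕ => (DR PA PB)^[n] x + (n : ℝ) • v) atTop (𝓝 l) := by
  have F := firm (convex_closedBall a r) (convex_closedBall b s) hA hB
  set T := DR PA PB with hT
  have fix : ∀ {c : X} {ρ : ℝ} {P : X → X}, IsProj (closedBall c ρ) P → ∀ z ∈ closedBall c ρ,
      P z = z := fun h z hz => by
    have := (h z).2 z hz
    rwa [sub_self, norm_zero, norm_le_zero_iff, sub_eq_zero, eq_comm] at this
  rcases le_or_gt ‖b - a‖ (r + s) with hd | hd
  · obtain ⟨z, za, zb⟩ := exists_dist_le_le (x := a) (z := b) hr hs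
      (by rw [dist_eq_norm', add_comm]; exact hd)
    have za : z ∈ closedBall a r := mem_closedBall'.2 za
    have zb : z ∈ closedBall b s := zb
    have Tz : T z = z := by
      have : refl PA z = z := by rw [refl, fix hA z za]; module
      rw [hT, DR_eq, this, fix hA z za, fix hB z zb]; simp
    have v0 : v = 0 := norm_le_zero_iff.1 (by simpa [Tz] using hv' _ (subset_closure ⟨z, rfl⟩))
    simp only [v0, smul_zero, add_zero]
    clear_value T
    have G : ∀ z, T z = z → ∀ n, ‖T^[n + 1] x - z‖ ^ 2 + ‖T^[n] x - T^[n + 1] x‖ ^ 2 ≤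
        ‖T^[n] x - z‖ ^ 2 := fun z hz n => by
      simpa [hz, Function.iterate_succ_apply'] using F (T^[n] x) z
    have ne : ∀ x y, ‖T x - T y‖ ≤ ‖x - y‖ := fun x y =>
      (sq_le_sq₀ (norm_nonneg _) (norm_nonneg _)).1 (by
        linarith [F x y, sq_nonneg ‖x - T x - (y - T y)‖])
    have Tc : Continuous T := (LipschitzWith.mk_one fun x y => by
      simpa only [dist_eq_norm] using ne x y).continuous
    obtain ⟨-, h2⟩ := fejer (fun n => T^[n] x) z (G z Tz)
    have bd : ∀ n, T^[n] x ∈ closedBall z ‖x - z‖ := fun n => by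
      rw [mem_closedBall_iff_norm]
      induction n with
      | zero => simp
      | succ n ih =>
        rw [Function.iterate_succ_apply']
        exact le_trans (by simpa [Tz] using ne (T^[n] x) z) ih
    obtain ⟨p, -, φ, hφ, hp⟩ := (isCompact_closedBall z _).tendsto_subseq bd
    have Tp : T p = p := by
      have h3 := hp.sub ((Tc.tendsto p).comp hp)
      have h4 := h2.comp hφ.tendsto_atTop
      simp only [Function.comp_def, Function.iterate_succ_apply'] at h3 h4
      exact (sub_eq_zero.1 (tendsto_nhds_unique h3 h4)).symm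
    obtain ⟨⟨l, hl⟩, -⟩ := fejer (fun n => T^[n] x) p (G p Tp)
    have l0 := tendsto_nhds_unique (hl.comp hφ.tendsto_atTop)
      ((tendsto_iff_norm_sub_tendsto_zero.1 hp).pow 2)
    refine ⟨p, tendsto_iff_norm_sub_tendsto_zero.2 ?_⟩
    simpa [l0] using hl.sqrt
  · obtain ⟨e, he, hb⟩ := polar (b - a) (norm_pos_iff.1 (by linarith))
    generalize ‖b - a‖ = τ at hd hb
    obtain rfl : b = a + τ • e := by rw [← hb]; abel
    have ray : ∀ t, r ≤ t → T (a + t • e) = a + (t + (τ - r - s)) • e := fun t ht => by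
      have h1 := proj_far hA e t he hr ht
      have h2 := proj_far hB (-e) (τ - 2 * r + t) (by simpa using he) hs (by linarith)
      rw [hT, DR_eq, show refl PA (a + t • e) = a + τ • e + (τ - 2 * r + t) • -e by
        rw [refl, h1]; module, h1, h2]
      module
    have hve : v = -(τ - r - s) • e := by
      have h1 : v ∈ closedBall (-τ • e) (r + s) := by
        refine closure_minimal ?_ isClosed_closedBall hv
        rintro _ ⟨y, rfl⟩
        have a1 := mem_closedBall_iff_norm.1 (hA y).1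
        have a2 := mem_closedBall_iff_norm.1 (hB (refl PA y)).1
        rw [mem_closedBall_iff_norm]
        refine le_trans (le_of_eq ?_) ((norm_sub_le _ _).trans (add_le_add a1 a2))
        simp only [hT, DR_eq]
        congr 1
        module
      have h2 := hv' _ (subset_closure ⟨a + r • e, rfl⟩)
      simp only [ray r le_rfl] at h2
      rw [add_sub_add_left_eq_sub, ← sub_smul, norm_smul, he, mul_one,
        Real.norm_of_nonpos (by linarith)] at h2
      rw [uniq (-τ • e) e v (r + s) τ he (by linarith) hd.le (mem_closedBall_iff_norm.1 h1)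
        (by simpa using h2.trans_eq (by ring))]
      module
    have step : ∀ y, ∃ κ c : ℝ, T y - a = κ • (y - a) + c • e := fun y => by
      obtain ⟨μ, h1⟩ := proj_mul hA hr y
      obtain ⟨ν, h2⟩ := proj_mul hB hs (refl PA y)
      refine ⟨1 - μ + ν * (2 * μ - 1), (1 - ν) * τ, ?_⟩
      rw [hT, DR_eq, h2, refl, h1]
      module
    clear_value T
    set γ := τ - r - s with hγ
    have γ0 : 0 < γ := by linarith
    clear_value γ
    subst hve
    have G : ∀ t, r ≤ t → _ := fun t ht =>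
      fejer (fun n : ℕ => T^[n] x + (n : ℝ) • -γ • e) (a + t • e) fun n => by
        have := F (T^[n] x) (a + (t + n * γ) • e)
        rw [ray _ (by have : 0 ≤ n * γ := by positivity
                      linarith)] at this
        simp only [Function.iterate_succ_apply']
        have E : ∀ {p q : X}, p = q → ‖p‖ ^ 2 = ‖q‖ ^ 2 := fun h => by rw [h]
        refine le_of_eq_of_le ?_ (this.trans_eq (E (by module)))
        congr 1 <;> exact E (by push_cast; module)
    obtain ⟨⟨l1, h1⟩, h2⟩ := G r le_rfl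
    obtain ⟨⟨l2, h3⟩, -⟩ := G (r + 1) (by linarith)
    have ee : ⟪e, e⟫ = 1 := by rw [real_inner_self_eq_norm_sq, he, one_pow]
    let Q : X → X := fun w => w - ⟪e, w⟫ • e
    have Qe : ∀ (κ c : ℝ) w, Q (κ • w + c • e) = κ • Q w := fun κ c w => by
      simp only [Q, inner_add_right, inner_smul_right, ee]; module
    set w : ℕ → X := fun n => T^[n] x + (n : ℝ) • -γ • e - (a + r • e) with hw
    have α : Tendsto (fun n => ⟪e, w n⟫) atTop (𝓝 ((l1 - l2 + 1) / 2)) := by
      refine (((h1.sub h3).add_const 1).div_const 2).congr fun n => ?_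
      rw [show T^[n] x + (n : ℝ) • -γ • e - (a + (r + 1) • e) = w n - e by simp only [hw]; module,
        norm_sub_sq_real (w n), he, real_inner_comm]
      simp only [hw]
      ring
    have β : Tendsto (fun n => ‖Q (w n)‖) atTop (𝓝 √(l1 - ((l1 - l2 + 1) / 2) ^ 2)) := by
      refine (h1.sub (α.pow 2)).sqrt.congr fun n => ?_
      rw [← Real.sqrt_sq (norm_nonneg (Q (w n)))]
      congr 1
      simp only [Q]
      rw [norm_sub_sq_real (w n), norm_smul, inner_smul_right, he, real_inner_comm e, mul_one,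
        Real.norm_eq_abs, sq_abs]
      simp only [hw]
      ring
    obtain ⟨p, hp⟩ := line (fun n => Q (w n)) _ β (by
      have c : Continuous Q := by fun_prop
      have := (c.tendsto 0).comp h2
      simp only [Q, inner_zero_right, zero_smul, sub_zero] at this
      refine this.congr fun n => ?_
      simp only [Function.comp_def, Q, hw, inner_sub_right]
      module) fun n => by
        obtain ⟨κ, c, h⟩ := step (T^[n] x)
        refine ⟨κ, ?_⟩
        rw [← Qe κ (c + κ * (r + n * γ) - r - (n + 1) * γ)]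
        congr 1
        simp only [hw, Function.iterate_succ_apply', eq_add_of_sub_eq h]
        push_cast
        module
    refine ⟨_, ((hp.add (α.smul_const e)).add_const (a + r • e)).congr fun n => ?_⟩
    simp only [Q, hw]
    module

end Pool.Agent.Results.MP_ef197a_an.Conv
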